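import Pool.Agent.H723R2.LSWDens
import Pool.Agent.H723R2.LSWWander
import Pool.Agent.H723R2.LSWJulia
import Pool.Agent.W38.AFe
import Pool.Agent.Results.MP_071ec9_an.RoundDomains

set_option autoImplicit false

/-!
# MP_071ec9_an: clusters of Fatou components of the entire `3x+1` function with a common fate

`f₀` is the entire function of Letherman, Schleicher and Wood which interpolates the `3x+1` function `T`;
`U_m` is its Fatou component which contains the integer `m`.  Let `s = 1` or `s = -1`.  An affine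
neighbour of `s n`, `n ≥ 1`, is an integer `m` with `|2^a 3^b m - 2^a' 3^b' (s n)| ≤ exp (κ n)` for some
`a, b, a', b' ≤ κ n`, `κ n = √(log n) / (log log n) ^ 16`; for example all `m` with
`|m - s n| ≤ exp (κ n)`, and all `m` close to `3 s n`, `6 s n`, `9 s n / 8`.

(1) For almost all `n` there is `t ≤ log₄ n` such that `f₀^(t+a')` maps `U_m` and `f₀^(t+a)` maps
`U_(s n)` into the SAME Fatou component, for ALL affine neighbours `m` of `s n` at once; if `U_(s n)` is
a wandering domain, then so are all these `U_m`, and `f₀^(t+a'+k)(U_m) = f₀^(t+a+k)(U_(s n))` for all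
`k ≥ 0`: from these times on the orbits of the domains are equal.

(2) The integers in wandering domains come in clusters: if `w` is their density (it is `< 1`), then in
each residue class modulo `q` the `n` all of whose affine neighbours lie in wandering domains (then
in the grand orbit of one wandering domain, by (1)) have the density `w / q`, and the `n` none of whose
affine neighbours does have the density `(1 - w) / q`.

(3) The same for the basin of each superattracting cycle of integers, with a positive density.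
-/

namespace Pool.Agent.Results.MP_071ec9_an.ClustersOfDomains

open Filter Topology
open Pool.Agent.H384R2.Fatou (FatouSet FatouComponent IsWanderingDomain)
open Pool.Agent.H499R2.CO (HD)

/-- The entire function of Letherman, Schleicher and Wood interpolating the `3x+1` map. -/
noncomputable def f₀ (z : ℂ) : ℂ :=
  z / 2 + (z + 1 / 2) * ((1 - Complex.cos (Real.pi * z)) / 2) +
    1 / Real.pi * (1 / 2 - Complex.cos (Real.pi * z)) * Complex.sin (Real.pi * z)

/-- The Fatou component of `f₀` containing the integer `n` is a wandering domain. -/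
def Wandering (n : ℤ) : Prop := IsWanderingDomain f₀ (FatouComponent f₀ n)

/-- The integer `n` is in the Fatou set, its component is not a wandering domain and is attracted to
the cycle of the integer `a`, of period (dividing) `p`: all points `z` of the component satisfy
`f₀^(k+pm)(z) → a` as `m → ∞`, for some `k`. -/
def Basin (a : ℤ) (p : ℕ) (n : ℤ) : Prop :=
  (n : ℂ) ∈ FatouSet f₀ ∧ ¬ IsWanderingDomain f₀ (FatouComponent f₀ n) ∧
    ∃ k : ℕ, ∀ z ∈ FatouComponent f₀ n,
      Tendsto (fun m : ℕ => f₀^[k + p * m] z) atTop (𝓝 (a : ℂ))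

/-- The positive integers with the property `P` have the natural density `δ`. -/
def HasDensity (P : ℕ → Prop) (δ : ℝ) : Prop :=
  Tendsto (fun N : ℕ => ({n : ℕ | 1 ≤ n ∧ n ≤ N ∧ P n}.ncard : ℝ) / N) atTop (𝓝 δ)

/-- The scale `√ (log n) / (log log n) ^ 16`. -/
noncomputable def κ (n : ℕ) : ℝ := √ (Real.log n) / (Real.log (Real.log n)) ^ 16

/-- The integers `x` and `m` are linked by the exponents `a, b, a', b'`: all the exponents are `≤ κ n`
and `|2^a 3^b m - 2^a' 3^b' x| ≤ exp (κ n)`. -/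
def Linked (n : ℕ) (x m : ℤ) (a b a' b' : ℕ) : Prop :=
  (a : ℝ) ≤ κ n ∧ (b : ℝ) ≤ κ n ∧ (a' : ℝ) ≤ κ n ∧ (b' : ℝ) ≤ κ n ∧
    |((2 ^ a * 3 ^ b * m - 2 ^ a' * 3 ^ b' * x : ℤ) : ℝ)| ≤ Real.exp (κ n)

/-- `m` is an affine neighbour of `x` (on the scale of `n`). -/
def Neighbour (n : ℕ) (x m : ℤ) : Prop := ∃ a b a' b' : ℕ, Linked n x m a b a' b'

/-- After `i` and `j` steps the orbits of `x` and `y` agree and their Fatou components are mapped into
the same component; if one of them is a wandering domain, then both are and after these times the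
images are equal. -/
def Merged (i j : ℕ) (x y : ℤ) : Prop :=
  f₀^[i] (x : ℂ) = f₀^[j] (y : ℂ) ∧ (Wandering x ↔ Wandering y) ∧ ∀ k : ℕ,
    Set.MapsTo f₀^[i + k] (FatouComponent f₀ x) (FatouComponent f₀ (f₀^[i + k] (x : ℂ))) ∧
    Set.MapsTo f₀^[j + k] (FatouComponent f₀ y) (FatouComponent f₀ (f₀^[i + k] (x : ℂ))) ∧
    (Wandering y →
      f₀^[i + k] '' FatouComponent f₀ x = FatouComponent f₀ (f₀^[i + k] (x : ℂ)) ∧
      f₀^[j + k] '' FatouComponent f₀ y = FatouComponent f₀ (f₀^[i + k] (x : ℂ)))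

open Pool.Agent.H723R2.LSW (T Mer Wild cast_iter wild_Ci basin_iff wandering_iff int_mem_fatou)

theorem f₀_eq : f₀ = Pool.Agent.H723R2.LSW.f₀ := rfl

theorem iter_cast (n : ℤ) (k : ℕ) : f₀^[k] (n : ℂ) = ((T^[k] n : ℤ) : ℂ) :=
  Pool.Agent.H723R2.LSW.f₀_iter n k

theorem maps (k : ℕ) (x : ℤ) :
    Set.MapsTo f₀^[k] (FatouComponent f₀ x) (FatouComponent f₀ (f₀^[k] (x : ℂ))) := by
  have h := Pool.Agent.H723R2.LSW.component_map (f := f₀)
    Pool.Agent.H723R2.LSW.f₀_differentiable.continuous Pool.Agent.H723R2.LSW.f₀_open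
    (int_mem_fatou x) k
  exact Set.mapsTo_iff_image_subset.2 h

/-- a wandering domain which contains an integer is mapped onto the components of its orbit -/
theorem onto {x : ℤ} (hx : Wandering x) (k : ℕ) :
    f₀^[k] '' FatouComponent f₀ x = FatouComponent f₀ (f₀^[k] (x : ℂ)) := by
  obtain ⟨C, -, hC⟩ := Pool.Agent.Results.MP_071ec9_an.RoundDomains.result
  have h1 : ∀ k : ℕ, f₀ '' FatouComponent f₀ ((T^[k] x : ℤ) : ℂ) =
      FatouComponent f₀ ((T^[k + 1] x : ℤ) : ℂ) := fun k => (((hC x).2.2.2 hx).2.1 k).2.2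
  rw [iter_cast]
  induction k with
  | zero => simp
  | succ k ih => rw [Function.iterate_succ', Set.image_comp, ih, h1]

theorem merged_of {i j : ℕ} {x y : ℤ} (h : T^[i] x = T^[j] y) : Merged i j x y := by
  have h1 : f₀^[i] (x : ℂ) = f₀^[j] (y : ℂ) := by rw [iter_cast, iter_cast, h]
  have h2 : ∀ k, f₀^[i + k] (x : ℂ) = f₀^[j + k] (y : ℂ) := by
    intro k
    rw [Nat.add_comm i k, Nat.add_comm j k, Function.iterate_add_apply, Function.iterate_add_apply, h1]
  have hm : Mer x y := ⟨i, j, h⟩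
  have hw : Wandering x ↔ Wandering y := by
    have e : ∀ z : ℤ, Wandering z ↔ Wild z := fun z => wandering_iff z
    rw [e, e]
    exact ⟨Pool.Agent.H723R2.LSW.wild_mer hm, Pool.Agent.H723R2.LSW.wild_mer hm.symm⟩
  refine ⟨h1, hw, fun k => ⟨maps _ x, ?_, fun hy => ⟨onto (hw.2 hy) _, ?_⟩⟩⟩
  · rw [h2 k]
    exact maps _ y
  · rw [h2 k]
    exact onto hy _

theorem wandering_inv : ∀ x : ℤ, x ∈ {n : ℤ | Wandering n} ↔
    Pool.Agent.H499R2.ND.Ci x ∈ {n : ℤ | Wandering n} := by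
  intro x
  have h : ∀ y : ℤ, y ∈ {n : ℤ | Wandering n} ↔ Wild y := fun y => wandering_iff y
  rw [h, h]
  exact wild_Ci x

theorem basin_inv {a : ℤ} {p : ℕ} (hp : 0 < p) (ha : T^[p] a = a) :
    ∀ x : ℤ, x ∈ {n : ℤ | Basin a p n} ↔ Pool.Agent.H499R2.ND.Ci x ∈ {n : ℤ | Basin a p n} := by
  intro x
  have h : ∀ y : ℤ, y ∈ {n : ℤ | Basin a p n} ↔ Mer y a := fun y => basin_iff hp ha
  rw [h, h]
  exact ⟨fun g => (Pool.Agent.H723R2.LSW.mer_Ci x).symm.trans g,
    fun g => (Pool.Agent.H723R2.LSW.mer_Ci x).trans g⟩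

theorem nb_iff (n : ℕ) (x m : ℤ) : Neighbour n x m ↔ Pool.Agent.W38.AF.NB n x m := by
  constructor
  · rintro ⟨a, b, a', b', h1, h2, h3, h4, h5⟩
    exact ⟨a, a', b, b', h1, h3, h2, h4, h5⟩
  · rintro ⟨a, a', b, b', h1, h3, h2, h4, h5⟩
    exact ⟨a, b, a', b', h1, h2, h3, h4, h5⟩

/-- the clusters of an invariant set -/
theorem clusters {s : ℤ} (hs : s = 1 ∨ s = -1) {P : ℤ → Prop}
    (h : ∀ x : ℤ, x ∈ {n : ℤ | P n} ↔ Pool.Agent.H499R2.ND.Ci x ∈ {n : ℤ | P n}) :
    ∃ δ : ℝ, 0 ≤ δ ∧ δ ≤ 1 ∧ (0 < δ ↔ ∃ x, P x ∧ 0 < s * x) ∧ (δ = 1 ↔ ∀ x, 0 < s * x → P x) ∧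
      ∀ q b : ℕ, 0 < q →
        HasDensity (fun n => n % q = b % q ∧ ∀ m, Neighbour n (s * n) m → P m) (δ / q) ∧
        HasDensity (fun n => n % q = b % q ∧ ∀ m, Neighbour n (s * n) m → ¬ P m) ((1 - δ) / q) := by
  obtain ⟨δ, h1, h2, h3⟩ := Pool.Agent.W38.AF.inv_nbr hs h
  have h4 : ∀ q b : ℕ, 0 < q →
      HasDensity (fun n => n % q = b % q ∧ ∀ m, Neighbour n (s * n) m → P m) (δ / q) ∧
      HasDensity (fun n => n % q = b % q ∧ ∀ m, Neighbour n (s * n) m → ¬ P m) ((1 - δ) / q) := by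
    intro q b hq
    obtain ⟨g1, g2⟩ := h3 q b hq
    refine ⟨Pool.Agent.W38.AF.HD_congr' g1 fun n _ => ?_, Pool.Agent.W38.AF.HD_congr' g2 fun n _ => ?_⟩
    · simp only [nb_iff]
      exact Iff.rfl
    · simp only [nb_iff]
      exact Iff.rfl
  obtain ⟨g1, g2⟩ := h4 1 0 one_pos
  have g3 : 0 ≤ δ := by
    have := ge_of_tendsto' g1 fun N => by positivity
    simpa using this
  have g4 : 0 ≤ 1 - δ := by
    have := ge_of_tendsto' g2 fun N => by positivity
    simpa using this
  refine ⟨δ, g3, by linarith, ?_, ?_, h4⟩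
  · rw [h1]
    exact Iff.rfl
  · rw [h2]
    exact Iff.rfl

/-- **Clusters of Fatou components with a common fate**, for the positive (`s = 1`) and the negative
(`s = -1`) integers. -/
theorem result (s : ℤ) (hs : s = 1 ∨ s = -1) :
    HasDensity (fun n => ∃ t : ℕ, 4 ^ t ≤ n ∧ ∀ (m : ℤ) (a b a' b' : ℕ),
      Linked n (s * n) m a b a' b' → Merged (t + a') (t + a) m (s * n)) 1 ∧
    (∃ w : ℝ, 0 ≤ w ∧ w < 1 ∧ (w = 0 ↔ ∀ n : ℤ, 0 < s * n → ¬ Wandering n) ∧ ∀ q b : ℕ, 0 < q →
      HasDensity (fun n => n % q = b % q ∧ ∀ m, Neighbour n (s * n) m → Wandering m) (w / q) ∧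
      HasDensity (fun n => n % q = b % q ∧ ∀ m, Neighbour n (s * n) m → ¬ Wandering m)
        ((1 - w) / q)) ∧
    (∀ (c : ℤ) (p : ℕ), 0 < s * c → 0 < p → f₀^[p] (c : ℂ) = c → ∃ β : ℝ, 0 < β ∧ β ≤ 1 ∧
      (β = 1 ↔ ∀ n : ℤ, 0 < s * n → Basin c p n) ∧ ∀ q b : ℕ, 0 < q →
        HasDensity (fun n => n % q = b % q ∧ ∀ m, Neighbour n (s * n) m → Basin c p m) (β / q) ∧
        HasDensity (fun n => n % q = b % q ∧ ∀ m, Neighbour n (s * n) m → ¬ Basin c p m)
          ((1 - β) / q)) := by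
  refine ⟨?_, ?_, ?_⟩
  · have hfw := Pool.Agent.W38.AF.fwdN hs
    refine Pool.Agent.H499R2.CO.HD_congr hfw hfw fun n _ hE => ⟨fun _ => ?_, fun _ => hE⟩
    obtain ⟨t, ht, hN⟩ := hE
    refine ⟨t, ht, fun m a b a' b' hL => merged_of ?_⟩
    exact hN a a' b b' hL.1 hL.2.2.1 hL.2.1 hL.2.2.2.1 m hL.2.2.2.2
  · obtain ⟨w, h0, h1, h2, h3, h4⟩ := clusters hs wandering_inv
    refine ⟨w, h0, lt_of_le_of_ne h1 fun h => ?_, ?_, h4⟩
    · have h5 := h3.1 h s (by rcases hs with rfl | rfl <;> norm_num)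
      have h6 : Wild s := (wandering_iff s).1 h5
      rcases hs with rfl | rfl
      · have := h6 0 2 (by decide)
        omega
      · have := h6 0 1 (by decide)
        omega
    · constructor
      · intro hw n hn hW
        have := h2.2 ⟨n, hW, hn⟩
        linarith
      · intro hn
        by_contra hw
        obtain ⟨x, hx, hsx⟩ := h2.1 (lt_of_le_of_ne h0 (Ne.symm hw))
        exact hn x hsx hx
  · intro c p hc hp hcp
    have ha : T^[p] c = c := cast_iter.1 hcp
    obtain ⟨β, h0, h1, h2, h3, h4⟩ := clusters hs (basin_inv hp ha)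
    refine ⟨β, h2.2 ⟨c, ?_, hc⟩, h1, h3, h4⟩
    exact (basin_iff hp ha).2 (Mer.refl c)

end Pool.Agent.Results.MP_071ec9_an.ClustersOfDomains
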