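import Pool.Agent.H723R2.LSWDens
import Pool.Agent.H723R2.LSWWander
import Pool.Agent.H723R2.LSWJulia
import Pool.Agent.Results.MP_071ec9_an.RoundDomains
import Pool.Agent.V11201.SH.G4
import Pool.Agent.V11201.SH.M3
import Pool.Agent.H499R2.NDCor
import Pool.Agent.H499R2.CO.R6

set_option autoImplicit false

/-! The Fatou components of the entire `3x+1` function at the integers of long intervals: for almost all
`n`, almost all integers of `(n, n + H]` are in components with the fate of the component of `n`, at all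
scales `H` up to a power of `n`. -/

namespace Pool.Agent.Results.MP_071ec9_an.ShortIntervals

open Filter Topology
open Pool.Agent.H384R2.Fatou (FatouSet FatouComponent IsWanderingDomain)

/-- The entire function of Letherman, Schleicher and Wood interpolating the `3x+1` map. -/
noncomputable def f₀ (z : ℂ) : ℂ :=
  z / 2 + (z + 1 / 2) * ((1 - Complex.cos (Real.pi * z)) / 2) +
    1 / Real.pi * (1 / 2 - Complex.cos (Real.pi * z)) * Complex.sin (Real.pi * z)

/-- The Fatou component of `f₀` containing the integer `n` is a wandering domain. -/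
def Wandering (n : ℤ) : Prop := IsWanderingDomain f₀ (FatouComponent f₀ n)

/-- The integer `n` is in the Fatou set, its component is not a wandering domain and is attracted to
the cycle of the integer `a`, of period (dividing) `p`: all points `z` of the component satisfy
`f₀^(k+pm)(z) → a` as `m → ∞`, for some `k`. -/
def Basin (a : ℤ) (p : ℕ) (n : ℤ) : Prop :=
  (n : ℂ) ∈ FatouSet f₀ ∧ ¬ IsWanderingDomain f₀ (FatouComponent f₀ n) ∧
    ∃ k : ℕ, ∀ z ∈ FatouComponent f₀ n,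
      Tendsto (fun m : ℕ => f₀^[k + p * m] z) atTop (𝓝 (a : ℂ))

/-- After `t` steps the orbits of `x` and `y` agree and their Fatou components are mapped into the same
component; if one of them is a wandering domain, then both are, and from then on the images are equal. -/
def Merged (t : ℕ) (x y : ℤ) : Prop :=
  f₀^[t] (x : ℂ) = f₀^[t] (y : ℂ) ∧ (Wandering x ↔ Wandering y) ∧ ∀ k : ℕ,
    Set.MapsTo f₀^[t + k] (FatouComponent f₀ x) (FatouComponent f₀ (f₀^[t + k] (x : ℂ))) ∧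
    Set.MapsTo f₀^[t + k] (FatouComponent f₀ y) (FatouComponent f₀ (f₀^[t + k] (x : ℂ))) ∧
    (Wandering x →
      f₀^[t + k] '' FatouComponent f₀ x = FatouComponent f₀ (f₀^[t + k] (x : ℂ)) ∧
      f₀^[t + k] '' FatouComponent f₀ y = FatouComponent f₀ (f₀^[t + k] (x : ℂ)))

/-- the number of the `1 ≤ j ≤ H` such that the components of `x` and `x + j` are not merged after `t`
steps for any `t` with `4 ^ t ≤ N` -/
noncomputable def lateStrays (N : ℕ) (x : ℤ) (H : ℕ) : ℕ :=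
  {j : ℕ | 1 ≤ j ∧ j ≤ H ∧ ¬ ∃ t : ℕ, 4 ^ t ≤ N ∧ Merged t x (x + j)}.ncard

/-- the number of the `1 ≤ j ≤ H` such that the components of `x` and `x + j` never merge -/
noncomputable def strays (x : ℤ) (H : ℕ) : ℕ :=
  {j : ℕ | 1 ≤ j ∧ j ≤ H ∧ ¬ ∃ t : ℕ, Merged t x (x + j)}.ncard

/-- the number of the `1 ≤ j ≤ H` for which `x + j` has the property `P` -/
noncomputable def inside (P : ℤ → Prop) (x : ℤ) (H : ℕ) : ℕ :=
  {j : ℕ | 1 ≤ j ∧ j ≤ H ∧ P (x + j)}.ncard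

/-- The positive integers with the property `P` have the natural density `δ`. -/
def HasDensity (P : ℕ → Prop) (δ : ℝ) : Prop :=
  Tendsto (fun N : ℕ => ({n : ℕ | 1 ≤ n ∧ n ≤ N ∧ P n}.ncard : ℝ) / N) atTop (𝓝 δ)

/-- `g n = n ^ o(1)`: `log (1 + g n) / log n` tends to `0` -/
def SubPower (g : ℕ → ℕ) : Prop := Tendsto (fun n : ℕ => Real.log (1 + g n) / Real.log n) atTop (𝓝 0)

/-- Let `P` have the density `δ` on the side `s`. For almost all `n` such that `s n` has the property `P`,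
all but `ε H` of the integers `s n + 1, ..., s n + H` have it, for all `H ≤ g n` at once; for almost all
other `n` at most `ε H` of them have it, for all `H ≤ g n` at once. -/
def Solid (s : ℤ) (P : ℤ → Prop) (δ : ℝ) : Prop :=
  HasDensity (fun n => P (s * n)) δ ∧ ∀ g : ℕ → ℕ, SubPower g → ∀ ε : ℝ, 0 < ε →
    HasDensity (fun n => P (s * n) ∧ ∀ H : ℕ, 1 ≤ H → H ≤ g n → (1 - ε) * H ≤ inside P (s * n) H) δ ∧
    HasDensity (fun n => ¬ P (s * n) ∧ ∀ H : ℕ, 1 ≤ H → H ≤ g n → (inside P (s * n) H : ℝ) ≤ ε * H) (1 - δ)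

/-- `S` is spread on the side `s`: for every `ε > 0` there is `c > 0` such that for all `θ > 0` and
infinitely many `N`: for all but `ε N` of the `n ≤ N` at least `c H` of the integers
`s n + 1, ..., s n + H` are in `S`, `H = ⌊N ^ θ⌋`. -/
def Spread (s : ℤ) (S : Set ℤ) : Prop :=
  ∀ ε : ℝ, 0 < ε → ∃ c : ℝ, 0 < c ∧ ∀ θ : ℝ, 0 < θ → ∃ᶠ N : ℕ in atTop,
    ({n : ℕ | 1 ≤ n ∧ n ≤ N ∧ (({j : ℕ | 1 ≤ j ∧ j ≤ ⌊(N : ℝ) ^ θ⌋₊ ∧ s * (n : ℤ) + j ∈ S}.ncard : ℕ) : ℝ) <
      c * ⌊(N : ℝ) ^ θ⌋₊}.ncard : ℝ) ≤ ε * N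

open Pool.Agent.H723R2.LSW (T Mer Wild cast_iter basin_iff wandering_iff int_mem_fatou)
open Pool.Agent.H499R2.CO (Tz)

theorem T_Tz : Tz 1 = T := rfl

theorem iter_cast (n : ℤ) (k : ℕ) : f₀^[k] (n : ℂ) = ((T^[k] n : ℤ) : ℂ) :=
  Pool.Agent.H723R2.LSW.f₀_iter n k

theorem maps (k : ℕ) (x : ℤ) :
    Set.MapsTo f₀^[k] (FatouComponent f₀ x) (FatouComponent f₀ (f₀^[k] (x : ℂ))) := by
  have h := Pool.Agent.H723R2.LSW.component_map (f := f₀)
    Pool.Agent.H723R2.LSW.f₀_differentiable.continuous Pool.Agent.H723R2.LSW.f₀_open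
    (int_mem_fatou x) k
  exact Set.mapsTo_iff_image_subset.2 h

/-- a wandering domain which contains an integer is mapped onto the components of its orbit -/
theorem onto {x : ℤ} (hx : Wandering x) (k : ℕ) :
    f₀^[k] '' FatouComponent f₀ x = FatouComponent f₀ (f₀^[k] (x : ℂ)) := by
  obtain ⟨C, -, hC⟩ := Pool.Agent.Results.MP_071ec9_an.RoundDomains.result
  have h1 : ∀ k : ℕ, f₀ '' FatouComponent f₀ ((T^[k] x : ℤ) : ℂ) =
      FatouComponent f₀ ((T^[k + 1] x : ℤ) : ℂ) := fun k => (((hC x).2.2.2 hx).2.1 k).2.2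
  rw [iter_cast]
  induction k with
  | zero => simp
  | succ k ih => rw [Function.iterate_succ', Set.image_comp, ih, h1]

theorem wander_mer {x y : ℤ} (hm : Mer x y) : Wandering x ↔ Wandering y := by
  have e : ∀ z : ℤ, Wandering z ↔ Wild z := fun z => wandering_iff z
  rw [e, e]
  exact ⟨Pool.Agent.H723R2.LSW.wild_mer hm, Pool.Agent.H723R2.LSW.wild_mer hm.symm⟩

theorem merged_of {t : ℕ} {x y : ℤ} (h : (Tz 1)^[t] x = (Tz 1)^[t] y) : Merged t x y := by
  rw [T_Tz] at h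
  have h1 : f₀^[t] (x : ℂ) = f₀^[t] (y : ℂ) := by rw [iter_cast, iter_cast, h]
  have h2 : ∀ k, f₀^[t + k] (x : ℂ) = f₀^[t + k] (y : ℂ) := by
    intro k
    rw [Nat.add_comm t k, Function.iterate_add_apply, Function.iterate_add_apply, h1]
  have hw : Wandering x ↔ Wandering y := wander_mer ⟨t, t, h⟩
  refine ⟨h1, hw, fun k => ⟨maps _ x, ?_, fun hx => ⟨onto hx _, ?_⟩⟩⟩
  · rw [h2 k]
    exact maps _ y
  · rw [h2 k]
    exact onto (hw.1 hx) _

theorem mer_step (x : ℤ) : Mer x (Tz 1 x) := ⟨1, 0, rfl⟩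

theorem wandering_inv (x : ℤ) : Wandering x ↔ Wandering (Tz 1 x) := wander_mer (mer_step x)

theorem basin_mer {a : ℤ} {p : ℕ} (hp : 0 < p) (ha : T^[p] a = a) (x : ℤ) : Basin a p x ↔ Mer x a :=
  basin_iff hp ha

theorem basin_inv {a : ℤ} {p : ℕ} (hp : 0 < p) (ha : T^[p] a = a) (x : ℤ) :
    Basin a p x ↔ Basin a p (Tz 1 x) := by
  rw [basin_mer hp ha, basin_mer hp ha]
  exact ⟨fun g => (mer_step x).symm.trans g, fun g => (mer_step x).trans g⟩

theorem inv_merge {P : ℤ → Prop} (hP : ∀ x, P x ↔ P (Tz 1 x)) {x y : ℤ} {t : ℕ}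
    (h : (Tz 1)^[t] x = (Tz 1)^[t] y) : P x ↔ P y := by
  have key : ∀ (t : ℕ) (x : ℤ), P x ↔ P ((Tz 1)^[t] x) := by
    intro t
    induction t with
    | zero => intro x; rfl
    | succ t ih => intro x; rw [Function.iterate_succ_apply, ← ih, ← hP]
  rw [key t x, h, ← key t y]

/-- densities of invariant sets -/
theorem dens_inv {s : ℤ} (hs : s = 1 ∨ s = -1) {P : ℤ → Prop}
    (hP : ∀ x, P x ↔ P (Tz 1 x)) : ∃ ρ : ℝ, 0 ≤ ρ ∧ ρ ≤ 1 ∧ HasDensity (fun n => P (s * n)) ρ ∧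
      ((∃ a, P a ∧ 0 < s * a) → 0 < ρ) ∧ ((∃ a, ¬ P a ∧ 0 < s * a) → ρ < 1) ∧
      ((∀ a, P a → ¬ 0 < s * a) → ρ = 0) := by
  have hinv : Pool.Agent.H499R2.ND.Inv 1 {x : ℤ | P x} := hP
  obtain ⟨l, hl0, hl1, hl⟩ := Pool.Agent.H499R2.ND.dens_side odd_one isCoprime_one_left hs hinv
  refine ⟨l, hl0, hl1, ?_, ?_, ?_, ?_⟩
  · refine (Pool.Agent.H499R2.ND.HD_ncard hs hl).congr fun N => ?_
    rw [Pool.Agent.H499R2.CO.side_ncard hs]
    rfl
  · rintro ⟨a, ha, hsa⟩
    exact Pool.Agent.H499R2.ND.one_pos hs hinv ha hsa hl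
  · rintro ⟨a, ha, hsa⟩
    exact Pool.Agent.H499R2.ND.one_lt hs hinv ha hsa hl
  · intro h
    exact Pool.Agent.H499R2.ND.one_eq_zero hs (S := {x : ℤ | P x}) h hl

open Pool.Agent.V11201.SH in
theorem solid {s : ℤ} (hs : s = 1 ∨ s = -1) {P : ℤ → Prop} (hP : ∀ x, P x ↔ P (Tz 1 x)) {ρ : ℝ}
    (h2 : HasDensity (fun n => P (s * n)) ρ) : Solid s P ρ := by
  refine ⟨h2, fun g hg ε hε => ?_⟩
  have hsc := meet_dens (d := 1) (by norm_num) hs hg hε
  constructor
  · refine Pool.Agent.H499R2.CO.HD_congr hsc h2 (fun n _ hn => ⟨fun h5 => ⟨h5, fun H hH1 hH2 => ?_⟩,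
      fun h5 => h5.1⟩)
    have h6 := hn H hH1 hH2
    have hsub : ((Finset.Icc 1 H : Finset ℕ) : Set ℕ) ⊆
        {j : ℕ | 1 ≤ j ∧ j ≤ H ∧ P (s * (n : ℤ) + j)} ∪
        {j : ℕ | 1 ≤ j ∧ j ≤ H ∧ ¬ ∃ t : ℕ, (Tz 1)^[t] (s * (n : ℤ)) =
          (Tz 1)^[t] (s * (n : ℤ) + 1 * (j : ℤ))} := by
      intro j hj
      rw [Finset.coe_Icc] at hj
      by_cases h7 : ∃ t : ℕ, (Tz 1)^[t] (s * (n : ℤ)) = (Tz 1)^[t] (s * (n : ℤ) + 1 * (j : ℤ))
      · left
        obtain ⟨t, ht⟩ := h7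
        have h8 := (inv_merge hP ht).1 h5
        rw [one_mul] at h8
        exact ⟨hj.1, hj.2, h8⟩
      · exact Or.inr ⟨hj.1, hj.2, h7⟩
    have h8 := (Set.ncard_le_ncard hsub ((fin_le _ H).union (fin_le _ H))).trans (Set.ncard_union_le _ _)
    rw [Set.ncard_coe_finset, Nat.card_Icc, Nat.add_sub_cancel] at h8
    have h9 : (H : ℝ) ≤ (inside P (s * n) H : ℝ) + (nomeet 1 (s * n) H : ℝ) := by
      exact_mod_cast h8
    linarith
  · refine Pool.Agent.H499R2.CO.HD_congr hsc (Pool.Agent.H499R2.CO.HD_not h2)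
      (fun n _ hn => ⟨fun h5 => ⟨h5, fun H hH1 hH2 => ?_⟩, fun h5 => h5.1⟩)
    have h6 := hn H hH1 hH2
    have h7 : inside P (s * n) H ≤ nomeet 1 (s * n) H := by
      unfold inside nomeet
      apply Set.ncard_le_ncard
      · rintro j ⟨a1, a2, a3⟩
        refine ⟨a1, a2, ?_⟩
        rintro ⟨t, ht⟩
        rw [one_mul] at ht
        exact h5 ((inv_merge hP ht).2 a3)
      · exact fin_le _ H
    have h8 : (inside P (s * n) H : ℝ) ≤ (nomeet 1 (s * n) H : ℝ) := by exact_mod_cast h7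
    linarith

theorem strays_le (x : ℤ) (H : ℕ) : strays x H ≤ Pool.Agent.V11201.SH.nomeet 1 x H := by
  unfold strays Pool.Agent.V11201.SH.nomeet
  apply Set.ncard_le_ncard
  · rintro j ⟨h1, h2, h3⟩
    refine ⟨h1, h2, fun h4 => h3 ?_⟩
    obtain ⟨t, ht⟩ := h4
    rw [one_mul] at ht
    exact ⟨t, merged_of ht⟩
  · exact Pool.Agent.V11201.SH.fin_le _ H

theorem lateStrays_le (N : ℕ) (x : ℤ) (H : ℕ) : lateStrays N x H ≤ Pool.Agent.V11201.SH.apart 1 N x H := by
  unfold lateStrays Pool.Agent.V11201.SH.apart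
  apply Set.ncard_le_ncard
  · rintro j ⟨h1, h2, h3⟩
    refine ⟨h1, h2, fun h4 => h3 ?_⟩
    obtain ⟨t, htN, ht⟩ := h4
    rw [one_mul] at ht
    exact ⟨t, htN, merged_of ht⟩
  · exact Pool.Agent.V11201.SH.fin_le _ H

/-- every integer of sign `s` merges with an element of a set spread on the side `s` -/
theorem spread_mer {s : ℤ} (hs : s = 1 ∨ s = -1) {S : Set ℤ} (hS : Spread s S) {n : ℤ} (hn : 0 < s * n) :
    ∃ x ∈ S, Mer x n := by
  have hn0 : n ≠ 0 := by rintro rfl; simp at hn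
  obtain ⟨i, hi⟩ := Pool.Agent.V11201.SH.exists_prime3 (d := 1) (by norm_num) (by norm_num) hn0
  have hsign : ∀ (i : ℕ) (m : ℤ), 0 < s * m → 0 < s * (Tz 1)^[i] m := by
    intro i
    induction i with
    | zero => intro m hm; exact hm
    | succ i ih =>
      intro m hm
      rw [Function.iterate_succ_apply]
      exact ih _ (Pool.Agent.H723R2.LSW.T_sign hs hm)
  have hS' : Pool.Agent.V11201.SH.SpreadD 1 s S := by
    intro ε hε
    obtain ⟨c, hc, h1⟩ := hS ε hε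
    refine ⟨c, hc, fun θ hθ => ?_⟩
    simp only [one_mul]
    exact h1 θ hθ
  obtain ⟨x, hx, j, hj⟩ := Pool.Agent.V11201.SH.spread_hit (d := 1) (by norm_num) (by norm_num) hi hs
    (hsign i n hn) hS'
  exact ⟨x, hx, j, i, hj⟩

open Pool.Agent.V11201.SH in
/-- **Fatou components at the integers of long intervals**, for `s = 1` and `s = -1`.
(1) For at most `(A / κ) √((1 + log (1 + H)) log log N / log N) N` of the `n ≤ N` more than `κ H` of the
components of `s n + 1, ..., s n + H` are not merged with the component of `s n` after `t ≤ log₄ N` steps.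
(2) For every `ε > 0` there is `θ > 0` such that for large `N`, for all but `ε N` of the `n ≤ N` and for ALL
`1 ≤ H ≤ N ^ θ`, the components of all but `ε H` of the integers `s n + 1, ..., s n + H` merge with the
component of `s n`.
(3) The integers in wandering domains form a solid set of density `w < 1`, and `w = 0` only if there are none.
(4) So do the integers in the basin of a cycle of integers of sign `s`, with a positive density.
(5) If `S` is spread on the side `s` and no element of `S` is in a wandering domain, then no integer of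
sign `s` is; and every cycle of integers of sign `s` attracts the component of an element of `S`. -/
theorem result (s : ℤ) (hs : s = 1 ∨ s = -1) :
    (∃ A : ℝ, 0 < A ∧ ∀ N : ℕ, 16 ≤ N → ∀ (H : ℕ) (κ : ℝ), 0 < κ →
      ({n : ℕ | 1 ≤ n ∧ n ≤ N ∧ κ * H < lateStrays N (s * n) H}.ncard : ℝ) ≤
        A / κ * √ ((1 + Real.log (1 + H)) * (Real.log (Real.log N) / Real.log N)) * N) ∧
    (∀ ε : ℝ, 0 < ε → ∃ θ : ℝ, 0 < θ ∧ ∃ N₀ : ℕ, ∀ N ≥ N₀, ({n : ℕ | 1 ≤ n ∧ n ≤ N ∧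
      ∃ H : ℕ, 1 ≤ H ∧ (H : ℝ) ≤ (N : ℝ) ^ θ ∧ ε * H < strays (s * n) H}.ncard : ℝ) ≤ ε * N) ∧
    (∃ w : ℝ, 0 ≤ w ∧ w < 1 ∧ (w = 0 ↔ ∀ n : ℤ, 0 < s * n → ¬ Wandering n) ∧ Solid s Wandering w) ∧
    (∀ (c : ℤ) (p : ℕ), 0 < s * c → 0 < p → f₀^[p] (c : ℂ) = c →
      ∃ β : ℝ, 0 < β ∧ β ≤ 1 ∧ Solid s (Basin c p) β) ∧
    (∀ S : Set ℤ, Spread s S →
      ((∀ x ∈ S, ¬ Wandering x) → ∀ n : ℤ, 0 < s * n → ¬ Wandering n) ∧
      ∀ (c : ℤ) (p : ℕ), 0 < s * c → 0 < p → f₀^[p] (c : ℂ) = c → ∃ x ∈ S, Basin c p x) := by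
  refine ⟨?_, ?_, ?_, ?_, ?_⟩
  · obtain ⟨A, hA, h⟩ := apart_rate
    refine ⟨A, hA, fun N hN H κ hκ => le_trans ?_ (h 1 (by norm_num) s hs N hN H κ hκ)⟩
    exact_mod_cast Set.ncard_le_ncard (by
      rintro n ⟨h1, h2, h3⟩
      exact ⟨h1, h2, h3.trans_le (by exact_mod_cast lateStrays_le N _ H)⟩) (fin_le _ N)
  · intro ε hε
    obtain ⟨θ, hθ, N0, h⟩ := meet_max (d := 1) (by norm_num) hs hε
    refine ⟨θ, hθ, N0, fun N hN => le_trans ?_ (h N hN)⟩
    exact_mod_cast Set.ncard_le_ncard (by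
      rintro n ⟨h1, h2, H, h3, h4, h5⟩
      refine ⟨h1, h2, H, h3, h4, h5.trans_le ?_⟩
      exact_mod_cast strays_le _ H) (fin_le _ N)
  · obtain ⟨w, h0, _, hd, h2, h3, h4⟩ := dens_inv hs wandering_inv
    refine ⟨w, h0, h3 ⟨s, ?_, ?_⟩, ⟨fun hw n hn hW => ?_, fun h => h4 fun a ha hsa => h a hsa ha⟩,
      solid hs wandering_inv hd⟩
    · intro hW
      have h6 : Wild s := (wandering_iff s).1 hW
      rcases hs with rfl | rfl
      · have := h6 0 2 (by decide)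
        omega
      · have := h6 0 1 (by decide)
        omega
    · rcases hs with rfl | rfl <;> norm_num
    · have := h2 ⟨n, hW, hn⟩
      linarith
  · intro c p hc hp hcp
    have ha : T^[p] c = c := cast_iter.1 hcp
    obtain ⟨β, _, h1, hd, h2, _, _⟩ := dens_inv hs (basin_inv hp ha)
    exact ⟨β, h2 ⟨c, (basin_mer hp ha c).2 (Mer.refl c), hc⟩, h1, solid hs (basin_inv hp ha) hd⟩
  · intro S hS
    refine ⟨fun h n hn hW => ?_, fun c p hc hp hcp => ?_⟩
    · obtain ⟨x, hx, hm⟩ := spread_mer hs hS hn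
      exact h x hx ((wander_mer hm).2 hW)
    · have ha : T^[p] c = c := cast_iter.1 hcp
      obtain ⟨x, hx, hm⟩ := spread_mer hs hS hc
      exact ⟨x, hx, (basin_mer hp ha x).2 hm⟩

end Pool.Agent.Results.MP_071ec9_an.ShortIntervals
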