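import Pool.Agent.Results.MP_071ec9_an.OrbitsBelowEntropy
import Pool.Agent.Results.MP_071ec9_an.RoundDomains
import Pool.Agent.H107.SparseInt

/-!
# The orbits of all points of the wandering domains which contain integers miss discs around the multiples of almost every
# number, and approach almost no point

`f₀` is the entire function of Letherman, Schleicher and Wood which extends the `3x+1` function.

**Theorem.** There is `η` smaller than the entropy exponent `H = 0.94995...` such that: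

1. Let `v_m ≥ 1` be a sequence with exponent of convergence at most `τ` (`0` for `b ^ m`, `1 / a` for `(m + 1) ^ a`) and
`0 ≤ θ < 1`. For all real `α` outside of a set of Hausdorff dimension at most `(η + τ) / (1 - θ)`, ALL integers `n` in
wandering domains of `f₀` and ALL points `w` of the wandering domain of `n`: for all large `m` the orbit of `w` under `f₀` has
no point in the disc of radius `v_m ^ θ` about `α v_m`.

2. For every map `φ` of the integers to a metric space (for example the inclusion in the `p`-adic integers) and `σ > 0`, for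
all `z` outside of a set of Hausdorff dimension at most `η / σ` and ALL integers `n` in wandering domains only finitely many
points `x` of the orbit of `n` satisfy `dist (φ x) z ≤ |x| ^ (-σ)`.

The orbits of the points of the wandering domain of `n` approach the orbit of `n` (starting file `RoundDomains`), which has
`O(R ^ η)` points in the disc of radius `R` (starting file `OrbitsBelowEntropy`); the rest are coverings.
-/

set_option autoImplicit false

namespace Pool.Agent.Results.MP_071ec9_an.WanderingMissWindows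

open Filter Pool.Agent.H384R2.Fatou Pool.Agent.Results.MP_071ec9_an.OrbitsBelowEntropy
open Pool.Agent.V35.WM (ExpLe)

theorem H_pos : 0 < H := by
  have hl2 : 0 < Real.log 2 := Real.log_pos (by norm_num)
  have hl3 : 0 < Real.log 3 := Real.log_pos (by norm_num)
  have h23 : Real.log 2 < Real.log 3 := Real.log_lt_log (by norm_num) (by norm_num)
  unfold H
  refine div_pos (Real.binEntropy_pos (div_pos hl2 hl3) ?_) hl2
  rw [div_lt_one hl3]
  exact h23

/-- a sequence in a disc moving to infinity slower than the centre -/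
theorem far_fixed {v : ℕ → ℝ} (htv : Tendsto v atTop atTop) {α θ : ℝ} (hα : α ≠ 0) (hθ : θ < 1) (B : ℝ) :
    ∀ᶠ m in atTop, (v m) ^ θ < |α| * v m - B := by
  have h1 : Tendsto (fun x : ℝ => x ^ (θ - 1)) atTop (nhds 0) := by
    have := tendsto_rpow_neg_atTop (show 0 < 1 - θ by linarith)
    simpa using this
  have hα0 : 0 < |α| := abs_pos.2 hα
  have h2 : ∀ᶠ x : ℝ in atTop, x ^ θ < |α| * x - B := by
    have h3 : ∀ᶠ x : ℝ in atTop, x ^ (θ - 1) < |α| / 2 := h1.eventually_lt_const (by positivity)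
    filter_upwards [h3, eventually_gt_atTop (0 : ℝ), eventually_gt_atTop (2 * B / |α|)] with x hx hx0 hxB
    have h4 : x ^ θ = x ^ (θ - 1) * x := by
      rw [← Real.rpow_add_one hx0.ne']
      congr 1
      ring
    rw [h4]
    have h5 : x ^ (θ - 1) * x < |α| / 2 * x := mul_lt_mul_of_pos_right hx hx0
    have h6 : 2 * B < x * |α| := by
      rwa [div_lt_iff₀ hα0] at hxB
    nlinarith
  exact htv.eventually h2

theorem key (v : ℕ → ℝ) (τ θ θ' : ℝ) (hv : ∀ m, 1 ≤ v m) (hτ : 0 ≤ τ) (hvτ : ExpLe v τ) (hθ0 : 0 ≤ θ) (hθθ' : θ < θ')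
    (hθ' : θ' < 1) (α : ℝ) (n : ℤ) (hn : n ∈ WanderingIntegers) (w : ℂ) (hw : w ∈ FatouComponent f₀ (n : ℂ))
    (h : ∃ m₀ : ℕ, ∀ m : ℕ, m₀ ≤ m → ∀ x ∈ {z : ℤ | ∃ k : ℕ, f₀^[k] (n : ℂ) = z}, (v m) ^ θ' < |(x : ℝ) - α * v m|) :
    ∃ m₀ : ℕ, ∀ m : ℕ, m₀ ≤ m → ∀ k : ℕ, (v m) ^ θ < ‖f₀^[k] w - ((α * v m : ℝ) : ℂ)‖ := by
  obtain ⟨C, _, hC⟩ := Pool.Agent.Results.MP_071ec9_an.RoundDomains.result
  obtain ⟨-, -, -, hR⟩ := hC n
  have hn' : IsWanderingDomain Pool.Agent.Results.MP_071ec9_an.RoundDomains.f₀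
      (Pool.Agent.Results.MP_071ec9_an.RoundDomains.U n) := hn
  obtain ⟨-, -, hdist, -⟩ := hR hn'
  obtain ⟨q, hq0, hq1, hq⟩ := hdist w hw
  obtain ⟨k₀, hk₀⟩ := eventually_atTop.1 hq
  have hclose : ∀ k, k₀ ≤ k → ‖f₀^[k] w - ((T^[k] n : ℤ) : ℂ)‖ ≤ 1 := fun k hk =>
    (hk₀ k hk).trans (pow_le_one₀ hq0 hq1.le)
  have htv : Tendsto v atTop atTop :=
    Pool.Agent.V35.WM.tendsto_of_expLe (fun j => lt_of_lt_of_le one_pos (hv j)) hτ hvτ
  obtain ⟨m₀, hm₀⟩ := h
  have hα : α ≠ 0 := by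
    rintro rfl
    have h1 : Tendsto (fun m => (v m) ^ θ') atTop atTop := (tendsto_rpow_atTop (by linarith)).comp htv
    obtain ⟨m, hm, hmb⟩ := ((h1.eventually_gt_atTop |(n : ℝ)|).and (eventually_ge_atTop m₀)).exists
    have h2 := hm₀ m hmb n ⟨0, rfl⟩
    rw [zero_mul, sub_zero] at h2
    linarith
  obtain ⟨B, hB⟩ : ∃ B : ℝ, ∀ k < k₀, ‖f₀^[k] w‖ ≤ B := by
    obtain ⟨B, hB⟩ := ((Set.finite_Iio k₀).image (fun k => ‖f₀^[k] w‖)).bddAbove
    exact ⟨B, fun k hk => hB ⟨k, hk, rfl⟩⟩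
  have hev1 := far_fixed htv hα (hθθ'.trans hθ') B
  have hev2 : ∀ᶠ m in atTop, (v m) ^ θ + 1 < (v m) ^ θ' := by
    have h1 : Tendsto (fun m => (v m) ^ (θ' - θ)) atTop atTop := (tendsto_rpow_atTop (by linarith)).comp htv
    filter_upwards [h1.eventually_gt_atTop 2] with m hm
    have hvm := hv m
    have h2 : 1 ≤ (v m) ^ θ := Real.one_le_rpow hvm hθ0
    have h3 : (v m) ^ θ' = (v m) ^ θ * (v m) ^ (θ' - θ) := by
      rw [← Real.rpow_add (by linarith)]
      congr 1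
      ring
    rw [h3]
    nlinarith
  obtain ⟨m₁, hm₁⟩ := eventually_atTop.1 (hev1.and hev2)
  refine ⟨max m₀ m₁, fun m hm k => ?_⟩
  obtain ⟨g1, g2⟩ := hm₁ m ((le_max_right _ _).trans hm)
  by_cases hk : k < k₀
  · have h3 : ‖((α * v m : ℝ) : ℂ)‖ = |α| * v m := by
      rw [Complex.norm_real, Real.norm_eq_abs, abs_mul, abs_of_nonneg (show 0 ≤ v m by linarith [hv m])]
    have h4 := norm_sub_norm_le ((α * v m : ℝ) : ℂ) (f₀^[k] w)
    rw [h3, norm_sub_rev] at h4
    have h5 := hB k hk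
    linarith
  · have h3 := hclose k (not_lt.1 hk)
    have h4 := hm₀ m ((le_max_left _ _).trans hm) (T^[k] n) ⟨k, f_iter k n⟩
    have h5 : ‖((T^[k] n : ℤ) : ℂ) - ((α * v m : ℝ) : ℂ)‖ = |((T^[k] n : ℤ) : ℝ) - α * v m| := by
      rw [← Complex.ofReal_intCast, ← Complex.ofReal_sub, Complex.norm_real, Real.norm_eq_abs]
    have h6 : ‖((T^[k] n : ℤ) : ℂ) - ((α * v m : ℝ) : ℂ)‖ ≤
        ‖f₀^[k] w - ((α * v m : ℝ) : ℂ)‖ + ‖f₀^[k] w - ((T^[k] n : ℤ) : ℂ)‖ := by
      have h7 : ((T^[k] n : ℤ) : ℂ) - ((α * v m : ℝ) : ℂ) =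
          (f₀^[k] w - ((α * v m : ℝ) : ℂ)) - (f₀^[k] w - ((T^[k] n : ℤ) : ℂ)) := by ring
      rw [h7]
      exact norm_sub_le _ _
    rw [h5] at h6
    linarith

/-- There is `η < H` such that (1) for `v_m ≥ 1` of exponent of convergence at most `τ`, `0 ≤ θ < 1` and all `α` outside a set
of dimension at most `(η + τ) / (1 - θ)`, for all integers `n` in wandering domains and all points `w` of the wandering domain
of `n`, for large `m` the orbit of `w` misses the disc of radius `v_m ^ θ` about `α v_m`; (2) for all maps `φ` of `ℤ` to metric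
spaces, `σ > 0`, and `z` outside a set of dimension at most `η / σ`, only finitely many points `x` of the orbit of any such
`n` satisfy `dist (φ x) z ≤ |x| ^ (-σ)`; (3) examples of exponents of convergence. -/
theorem result : ∃ η : ℝ, 0 ≤ η ∧ η < H ∧
    (∀ (v : ℕ → ℝ) (τ θ : ℝ), (∀ m, 1 ≤ v m) → 0 ≤ τ → ExpLe v τ → 0 ≤ θ → θ < 1 →
      ∃ E : Set ℝ, dimH E ≤ ENNReal.ofReal ((η + τ) / (1 - θ)) ∧ ∀ α ∉ E, ∀ n ∈ WanderingIntegers,
        ∀ w ∈ FatouComponent f₀ (n : ℂ), ∃ m₀ : ℕ, ∀ m : ℕ, m₀ ≤ m → ∀ k : ℕ,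
          (v m) ^ θ < ‖f₀^[k] w - ((α * v m : ℝ) : ℂ)‖) ∧
    (∀ (M : Type) [MetricSpace M] (φ : ℤ → M) (σ : ℝ), 0 < σ →
      ∃ E : Set M, dimH E ≤ ENNReal.ofReal (η / σ) ∧ ∀ z ∉ E, ∀ n ∈ WanderingIntegers,
        {x : ℤ | (∃ k : ℕ, f₀^[k] (n : ℂ) = x) ∧ dist (φ x) z ≤ (max 1 |(x : ℝ)|) ^ (-σ)}.Finite) ∧
    (∀ b : ℝ, 1 < b → ExpLe (fun m : ℕ => b ^ m) 0) ∧
    (∀ a : ℝ, 0 < a → ExpLe (fun m : ℕ => ((m : ℝ) + 1) ^ a) (1 / a)) := by
  classical
  obtain ⟨η₀, C, hη₀, hC, h⟩ := Pool.Agent.Results.MP_071ec9_an.OrbitsBelowEntropy.result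
  set η : ℝ := max η₀ 0 with hη
  have hηH : η < H := max_lt hη₀ H_pos
  have hη0 : 0 ≤ η := le_max_right _ _
  have hsp : ∀ j : {n : ℤ // n ∈ WanderingIntegers},
      Pool.Agent.H107.SI.Sparse {z : ℤ | ∃ k : ℕ, f₀^[k] (j.1 : ℂ) = z} η := by
    rintro ⟨n, hn⟩
    refine ⟨C, fun R hR F hF => ?_⟩
    have h1 := h n hn 0 R hR
    have hsub : (F : Set ℤ) ⊆ {z : ℤ | |(z : ℝ) - 0| ≤ R ∧ ∃ k : ℕ, f₀^[k] (n : ℂ) = z} := by
      intro z hz
      have := hF z hz
      rw [← sub_zero (z : ℝ)] at this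
      exact ⟨this.2, this.1⟩
    have hfin : {z : ℤ | |(z : ℝ) - 0| ≤ R ∧ ∃ k : ℕ, f₀^[k] (n : ℂ) = z}.Finite := by
      refine (Pool.Agent.H107.SI.ball_finite Set.univ R).subset ?_
      rintro z ⟨hz, _⟩
      rw [sub_zero] at hz
      exact ⟨trivial, hz⟩
    have h2 : (F.card : ℝ) ≤ ({z : ℤ | |(z : ℝ) - 0| ≤ R ∧ ∃ k : ℕ, f₀^[k] (n : ℂ) = z}.ncard : ℝ) := by
      have := Set.ncard_le_ncard hsub hfin
      rw [Set.ncard_coe_finset] at this
      exact_mod_cast this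
    refine h2.trans (h1.trans (mul_le_mul_of_nonneg_left ?_ hC.le))
    exact Real.rpow_le_rpow_of_exponent_le hR (le_max_left _ _)
  -- a slightly larger exponent
  set η' : ℝ := (η + H) / 2 with hη'
  have hηη' : η < η' := by rw [hη']; linarith
  have hη'H : η' < H := by rw [hη']; linarith
  refine ⟨η', by linarith, hη'H, ?_, ?_, Pool.Agent.V35.WM.expLe_geom, Pool.Agent.V35.WM.expLe_pow⟩
  · intro v τ θ hv hτ hvτ hθ0 hθ
    -- a slightly larger window
    have h1θ : 0 < 1 - θ := by linarith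
    have hsum : 0 < η' + τ := by linarith
    set θ' : ℝ := 1 - (1 - θ) * ((η + τ) / (η' + τ)) with hθ'
    have hr1 : (η + τ) / (η' + τ) < 1 := by
      rw [div_lt_one hsum]
      linarith
    have hr0 : 0 ≤ (η + τ) / (η' + τ) := div_nonneg (by linarith) hsum.le
    have hθθ' : θ < θ' := by
      rw [hθ']
      nlinarith
    -- the case `η + τ = 0` is treated with `θ'` smaller than one
    by_cases hz : η + τ = 0
    · -- then `η = 0`, `τ = 0`
      set θ'' : ℝ := (1 + θ) / 2 with hθ''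
      obtain ⟨E, h1, h2⟩ := Pool.Agent.H107.SI.win (J := {n : ℤ // n ∈ WanderingIntegers}) _ hη0 hsp hv hτ hvτ
        (show θ'' < 1 by rw [hθ'']; linarith)
      refine ⟨E, h1.trans ?_, fun α hα n hn w hw => ?_⟩
      · rw [hz, zero_div]
        exact ENNReal.ofReal_le_ofReal (div_nonneg hsum.le h1θ.le)
      · exact key v τ θ θ'' hv hτ hvτ hθ0 (by rw [hθ'']; linarith) (by rw [hθ'']; linarith) α n hn w hw (h2 α hα ⟨n, hn⟩)
    · have hpos : 0 < η + τ := lt_of_le_of_ne (by linarith) (Ne.symm hz)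
      have hrpos : 0 < (η + τ) / (η' + τ) := div_pos hpos hsum
      have hθ'1 : θ' < 1 := by
        rw [hθ']
        have := mul_pos h1θ hrpos
        linarith
      obtain ⟨E, h1, h2⟩ := Pool.Agent.H107.SI.win (J := {n : ℤ // n ∈ WanderingIntegers}) _ hη0 hsp hv hτ hvτ hθ'1
      refine ⟨E, h1.trans (le_of_eq ?_), fun α hα n hn w hw => ?_⟩
      · congr 1
        have e1 : 1 - θ' = (1 - θ) * ((η + τ) / (η' + τ)) := by rw [hθ']; ring
        rw [e1]
        field_simp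
      · exact key v τ θ θ' hv hτ hvτ hθ0 hθθ' hθ'1 α n hn w hw (h2 α hα ⟨n, hn⟩)
  · intro M _ φ σ hσ
    obtain ⟨E, h1, h2⟩ := Pool.Agent.H107.SI.near (J := {n : ℤ // n ∈ WanderingIntegers}) _ hη0 hsp φ hσ
    refine ⟨E, h1.trans (ENNReal.ofReal_le_ofReal ?_), fun z hz n hn => h2 z hz ⟨n, hn⟩⟩
    exact div_le_div_of_nonneg_right hηη'.le hσ.le

end Pool.Agent.Results.MP_071ec9_an.WanderingMissWindows
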