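import Pool.Agent.Results.MP_071ec9_an.OrbitsBelowEntropy
import Pool.Agent.Results.MP_071ec9_an.RoundDomains
import Pool.Agent.Helper203.NP.Two

/-!
# Wandering domains miss the neighbourhoods of the powers of a typical number, and of `n ^ α`

Let `f₀` be the entire `3x+1` interpolation of the problem. By the starting result `OrbitsBelowEntropy` the orbit of an
integer `n` whose Fatou component is a wandering domain has at most `O (R ^ η)` points in intervals of length `R`, with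
`η` smaller than the entropy exponent `H = 0.94995...`, and by `RoundDomains` the orbits of all points of this wandering
domain approach the orbit of `n`. Nothing is known about the place of the orbits. Here we show that for all `z > 1`
outside a set of Hausdorff dimension at most `η / (1 - θ)` the orbits of ALL points of ALL these wandering domains miss
all but finitely many of the discs of radius `z ^ (θ ν m)` about `β z ^ (ν m)`, and similarly for the discs of radius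
`m ^ (α θ)` about `m ^ α`.
-/

set_option autoImplicit false

namespace Pool.Agent.Results.MP_071ec9_an.WanderingNearPowers

open Filter MeasureTheory Topology Pool.Agent.H384R2.Fatou Pool.Agent.Results.MP_071ec9_an.OrbitsBelowEntropy

theorem H_pos : 0 < H := by
  have hl2 : 0 < Real.log 2 := Real.log_pos (by norm_num)
  have hl3 : 0 < Real.log 3 := Real.log_pos (by norm_num)
  have h23 : Real.log 2 < Real.log 3 := Real.log_lt_log (by norm_num) (by norm_num)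
  unfold H
  refine div_pos (Real.binEntropy_pos (div_pos hl2 hl3) ?_) hl2
  rw [div_lt_one hl3]
  exact h23

theorem H_le : H ≤ 1 := by
  have hl2 : 0 < Real.log 2 := Real.log_pos (by norm_num)
  unfold H
  rw [div_le_one hl2]
  exact Real.binEntropy_le_log_two

/-- exponents `θ' > θ` tending to `θ` -/
noncomputable def up (θ : ℝ) (k : ℕ) : ℝ := θ + (1 - θ) * (1 / ((k : ℝ) + 2))

lemma lt_up {θ : ℝ} (hθ : θ < 1) (k : ℕ) : θ < up θ k := by
  have h2 : 0 < (1 - θ) * (1 / ((k : ℝ) + 2)) := mul_pos (by linarith) (by positivity)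
  unfold up
  linarith

lemma up_lt {θ : ℝ} (hθ : θ < 1) (k : ℕ) : up θ k < 1 := by
  have h1 : 1 / ((k : ℝ) + 2) < 1 := by
    rw [div_lt_one (by positivity)]
    have : (0 : ℝ) ≤ k := Nat.cast_nonneg k
    linarith
  have h2 := mul_lt_mul_of_pos_left h1 (show 0 < 1 - θ by linarith)
  unfold up
  linarith

lemma dim_iInter {E : ℕ → Set ℝ} {F : Set ℝ} {s θ : ℝ} (hθ1 : θ < 1)
    (h : ∀ k, dimH (E k ∩ F) ≤ ENNReal.ofReal (s / (1 - up θ k))) :
    dimH ((⋂ k, E k) ∩ F) ≤ ENNReal.ofReal (s / (1 - θ)) := by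
  have h1 : ∀ k : ℕ, dimH ((⋂ k, E k) ∩ F) ≤ ENNReal.ofReal (s / (1 - up θ k)) := fun k =>
    (dimH_mono (Set.inter_subset_inter_left _ (Set.iInter_subset _ k))).trans (h k)
  have h2 : Tendsto (fun k : ℕ => ENNReal.ofReal (s / (1 - up θ k))) atTop
      (𝓝 (ENNReal.ofReal (s / (1 - (θ + (1 - θ) * 0))))) := by
    apply ENNReal.tendsto_ofReal
    have h3 : Tendsto (fun k : ℕ => 1 / ((k : ℝ) + 2)) atTop (𝓝 0) := by
      have h4 := (tendsto_one_div_add_atTop_nhds_zero_nat (𝕜 := ℝ)).comp (tendsto_add_atTop_nat 1)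
      refine h4.congr (fun k => ?_)
      simp only [Function.comp_apply]
      push_cast
      ring
    refine Tendsto.div tendsto_const_nhds (tendsto_const_nhds.sub ((h3.const_mul (1 - θ)).const_add θ)) ?_
    rw [mul_zero, add_zero]
    linarith
  rw [mul_zero, add_zero] at h2
  exact ge_of_tendsto' h2 h1

/-- from the orbit of the integer to the orbits of all points of its wandering domain -/
theorem key (c R R' : ℕ → ℝ) (n : ℤ) (hn : n ∈ WanderingIntegers) (w : ℂ) (hw : w ∈ FatouComponent f₀ (n : ℂ))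
    (h : ∃ m₀ : ℕ, ∀ m : ℕ, m₀ ≤ m → ∀ x ∈ {z : ℤ | ∃ k : ℕ, f₀^[k] (n : ℂ) = z}, R' m < |(x : ℝ) - c m|)
    (h1 : ∀ B : ℝ, ∀ᶠ m in atTop, R m < c m - B) (h2 : ∀ᶠ m in atTop, R m + 1 < R' m) :
    ∃ m₀ : ℕ, ∀ m : ℕ, m₀ ≤ m → ∀ k : ℕ, R m < ‖f₀^[k] w - ((c m : ℝ) : ℂ)‖ := by
  obtain ⟨C, _, hC⟩ := Pool.Agent.Results.MP_071ec9_an.RoundDomains.result
  obtain ⟨-, -, -, hR⟩ := hC n
  have hn' : IsWanderingDomain Pool.Agent.Results.MP_071ec9_an.RoundDomains.f₀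
      (Pool.Agent.Results.MP_071ec9_an.RoundDomains.U n) := hn
  obtain ⟨-, -, hdist, -⟩ := hR hn'
  obtain ⟨q, hq0, hq1, hq⟩ := hdist w hw
  obtain ⟨k₀, hk₀⟩ := eventually_atTop.1 hq
  have hclose : ∀ k, k₀ ≤ k → ‖f₀^[k] w - ((T^[k] n : ℤ) : ℂ)‖ ≤ 1 := fun k hk =>
    (hk₀ k hk).trans (pow_le_one₀ hq0 hq1.le)
  obtain ⟨m₀, hm₀⟩ := h
  obtain ⟨B, hB⟩ : ∃ B : ℝ, ∀ k < k₀, ‖f₀^[k] w‖ ≤ B := by
    obtain ⟨B, hB⟩ := ((Set.finite_Iio k₀).image (fun k => ‖f₀^[k] w‖)).bddAbove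
    exact ⟨B, fun k hk => hB ⟨k, hk, rfl⟩⟩
  obtain ⟨m₁, hm₁⟩ := eventually_atTop.1 ((h1 B).and h2)
  refine ⟨max m₀ m₁, fun m hm k => ?_⟩
  obtain ⟨g1, g2⟩ := hm₁ m ((le_max_right _ _).trans hm)
  by_cases hk : k < k₀
  · have h3 : c m ≤ ‖((c m : ℝ) : ℂ)‖ := by
      rw [Complex.norm_real, Real.norm_eq_abs]
      exact le_abs_self _
    have h4 := norm_sub_norm_le ((c m : ℝ) : ℂ) (f₀^[k] w)
    rw [norm_sub_rev] at h4
    have h5 := hB k hk
    linarith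
  · have h3 := hclose k (not_lt.1 hk)
    have h4 := hm₀ m ((le_max_left _ _).trans hm) (T^[k] n) ⟨k, f_iter k n⟩
    have h5 : ‖((T^[k] n : ℤ) : ℂ) - ((c m : ℝ) : ℂ)‖ = |((T^[k] n : ℤ) : ℝ) - c m| := by
      rw [← Complex.ofReal_intCast, ← Complex.ofReal_sub, Complex.norm_real, Real.norm_eq_abs]
    have h6 : ‖((T^[k] n : ℤ) : ℂ) - ((c m : ℝ) : ℂ)‖ ≤
        ‖f₀^[k] w - ((c m : ℝ) : ℂ)‖ + ‖f₀^[k] w - ((T^[k] n : ℤ) : ℂ)‖ := by
      have h7 : ((T^[k] n : ℤ) : ℂ) - ((c m : ℝ) : ℂ) =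
          (f₀^[k] w - ((c m : ℝ) : ℂ)) - (f₀^[k] w - ((T^[k] n : ℤ) : ℂ)) := by ring
      rw [h7]
      exact norm_sub_le _ _
    rw [h5] at h6
    linarith

/-- the positive points of the orbit of `n` -/
def Orb (n : ℤ) : Set ℕ := {t : ℕ | ∃ k : ℕ, f₀^[k] (n : ℂ) = ((t : ℤ) : ℂ)}

/-- far from the natural numbers of the orbit, far from the orbit -/
lemma far_of {n : ℤ} {c R : ℝ} (hR : R ≤ c) (h : ∀ t : ℕ, |(t : ℝ) - c| ≤ R → t ∉ Orb n) :
    ∀ x ∈ {z : ℤ | ∃ k : ℕ, f₀^[k] (n : ℂ) = z}, R < |(x : ℝ) - c| := by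
  rintro x ⟨k, hk⟩
  by_contra hcon
  push Not at hcon
  have h1 : (0 : ℝ) ≤ x := by
    have := (abs_le.1 hcon).1
    linarith
  have h2 : 0 ≤ x := by exact_mod_cast h1
  obtain ⟨t, rfl⟩ := Int.eq_ofNat_of_zero_le h2
  refine h t ?_ ⟨k, hk⟩
  exact_mod_cast hcon

/-- two exponents -/
lemma two_exps {y : ℕ → ℝ} (hy : Tendsto y atTop atTop) {θ θ' : ℝ} (h0 : 0 ≤ θ) (h : θ < θ') :
    ∀ᶠ m in atTop, (y m) ^ θ + 1 < (y m) ^ θ' := by
  have h1 : Tendsto (fun m => (y m) ^ (θ' - θ)) atTop atTop := (tendsto_rpow_atTop (by linarith)).comp hy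
  filter_upwards [h1.eventually_gt_atTop 2, hy.eventually_ge_atTop 1] with m hm hvm
  have h2 : 1 ≤ (y m) ^ θ := Real.one_le_rpow hvm h0
  have h3 : (y m) ^ θ' = (y m) ^ θ * (y m) ^ (θ' - θ) := by
    rw [← Real.rpow_add (by linarith)]
    congr 1
    ring
  rw [h3]
  nlinarith

lemma far_zero {y : ℕ → ℝ} (hy : Tendsto y atTop atTop) {β θ : ℝ} (hβ : 0 < β) (hθ : θ < 1) (B : ℝ) :
    ∀ᶠ m in atTop, (y m) ^ θ < β * y m - B := by
  have h1 : Tendsto (fun x : ℝ => x ^ (θ - 1)) atTop (𝓝 0) := by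
    have := tendsto_rpow_neg_atTop (show 0 < 1 - θ by linarith)
    simpa using this
  have h2 : ∀ᶠ x : ℝ in atTop, x ^ θ < β * x - B := by
    have h3 : ∀ᶠ x : ℝ in atTop, x ^ (θ - 1) < β / 2 := h1.eventually_lt_const (by positivity)
    filter_upwards [h3, eventually_gt_atTop (0 : ℝ), eventually_gt_atTop (2 * B / β)] with x hx hx0 hxB
    have h4 : x ^ θ = x ^ (θ - 1) * x := by
      rw [← Real.rpow_add_one hx0.ne']
      congr 1
      ring
    rw [h4]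
    have h5 : x ^ (θ - 1) * x < β / 2 * x := mul_lt_mul_of_pos_right hx hx0
    have h6 : 2 * B < x * β := by
      rwa [div_lt_iff₀ hβ] at hxB
    nlinarith
  exact hy.eventually h2

/-- **Theorem.** There is `0 ≤ η < H` (`H = 0.94995...`) such that: (1) if `ν m / log m → ∞`, `B` is countable and
`0 ≤ θ < 1`, then for all `z > 1` outside a set of Hausdorff dimension at most `η / (1 - θ)`, all `β > 0` in `B`, all
integers `n` in wandering domains and all points `w` of the wandering domain of `n`: for all large `m` the orbit of `w`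
misses the closed disc of radius `z ^ (θ ν m)` about `β z ^ (ν m)`; (2) if `0 ≤ θ < 1`, then for all `α > 0` outside a set
whose part in `[a, ∞)` has dimension at most `(η + 1 / a) / (1 - θ)` for every `a > 0`, all these `n` and `w`: for all
large `m` the orbit of `w` misses the closed disc of radius `m ^ (α θ)` about `m ^ α`; (3) for almost every `z > 1` (1)
holds with `θ = 1 - H`; (4) there is `a` such that for almost every `α ≥ a` (2) holds with `θ = 1 - H`. -/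
theorem result : ∃ η : ℝ, 0 ≤ η ∧ η < H ∧
    (∀ (ν : ℕ → ℝ) (B : Set ℝ) (θ : ℝ), Tendsto (fun m : ℕ => ν m / Real.log m) atTop atTop → B.Countable →
      0 ≤ θ → θ < 1 → ∃ E : Set ℝ, dimH E ≤ ENNReal.ofReal (η / (1 - θ)) ∧ ∀ z : ℝ, 1 < z → z ∉ E →
        ∀ β ∈ B, 0 < β → ∀ n ∈ WanderingIntegers, ∀ w ∈ FatouComponent f₀ (n : ℂ),
          ∃ m₀ : ℕ, ∀ m : ℕ, m₀ ≤ m → ∀ k : ℕ,
            z ^ (θ * ν m) < ‖f₀^[k] w - ((β * z ^ ν m : ℝ) : ℂ)‖) ∧
    (∀ θ : ℝ, 0 ≤ θ → θ < 1 →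
      ∃ E : Set ℝ, (∀ a : ℝ, 0 < a → dimH (E ∩ Set.Ici a) ≤ ENNReal.ofReal ((η + 1 / a) / (1 - θ))) ∧
        ∀ α : ℝ, 0 < α → α ∉ E → ∀ n ∈ WanderingIntegers, ∀ w ∈ FatouComponent f₀ (n : ℂ),
          ∃ m₀ : ℕ, ∀ m : ℕ, m₀ ≤ m → ∀ k : ℕ,
            ((m : ℝ) ^ α) ^ θ < ‖f₀^[k] w - (((m : ℝ) ^ α : ℝ) : ℂ)‖) ∧
    (∀ (ν : ℕ → ℝ) (B : Set ℝ), Tendsto (fun m : ℕ => ν m / Real.log m) atTop atTop → B.Countable →
      ∀ᵐ z : ℝ, 1 < z → ∀ β ∈ B, 0 < β → ∀ n ∈ WanderingIntegers, ∀ w ∈ FatouComponent f₀ (n : ℂ),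
        ∃ m₀ : ℕ, ∀ m : ℕ, m₀ ≤ m → ∀ k : ℕ,
          z ^ ((1 - H) * ν m) < ‖f₀^[k] w - ((β * z ^ ν m : ℝ) : ℂ)‖) ∧
    (∃ a : ℝ, 0 < a ∧ ∀ᵐ α : ℝ, a ≤ α → ∀ n ∈ WanderingIntegers, ∀ w ∈ FatouComponent f₀ (n : ℂ),
        ∃ m₀ : ℕ, ∀ m : ℕ, m₀ ≤ m → ∀ k : ℕ,
          ((m : ℝ) ^ α) ^ (1 - H) < ‖f₀^[k] w - (((m : ℝ) ^ α : ℝ) : ℂ)‖) := by
  classical
  obtain ⟨η₀, C, hη₀, hC, h⟩ := Pool.Agent.Results.MP_071ec9_an.OrbitsBelowEntropy.result
  set η : ℝ := max η₀ 0 with hη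
  have hηH : η < H := max_lt hη₀ H_pos
  have hη0 : 0 ≤ η := le_max_right _ _
  have hH1 := H_le
  have hH0 := H_pos
  have hc : ∀ n ∈ WanderingIntegers, ∀ ε : ℝ, 0 < ε → ∃ C : ℝ, ∀ X : ℝ, 1 ≤ X →
      {t : ℕ | t ∈ Orb n ∧ (t : ℝ) ≤ X}.Finite ∧
      ({t : ℕ | t ∈ Orb n ∧ (t : ℝ) ≤ X}.ncard : ℝ) ≤ C * X ^ (η + ε) := by
    intro n hn ε hε
    refine ⟨C, fun X hX => ?_⟩
    have hfin : {t : ℕ | t ∈ Orb n ∧ (t : ℝ) ≤ X}.Finite :=
      (Set.finite_Icc 0 ⌊X⌋₊).subset fun t ht => ⟨Nat.zero_le _, Nat.le_floor ht.2⟩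
    refine ⟨hfin, ?_⟩
    have h1 := h n hn 0 X hX
    have hfin2 : {z : ℤ | |(z : ℝ) - 0| ≤ X ∧ ∃ k : ℕ, f₀^[k] (n : ℂ) = z}.Finite := by
      apply (Set.finite_Icc (-⌈X⌉) ⌈X⌉).subset
      rintro z ⟨hz, _⟩
      rw [sub_zero, abs_le] at hz
      have h1 := Int.le_ceil X
      have h2 : (-(⌈X⌉ : ℝ)) ≤ z := by linarith [hz.1]
      have h3 : (z : ℝ) ≤ ⌈X⌉ := by linarith [hz.2]
      exact ⟨by exact_mod_cast h2, by exact_mod_cast h3⟩
    have h2 : {t : ℕ | t ∈ Orb n ∧ (t : ℝ) ≤ X}.ncard ≤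
        {z : ℤ | |(z : ℝ) - 0| ≤ X ∧ ∃ k : ℕ, f₀^[k] (n : ℂ) = z}.ncard := by
      refine Set.ncard_le_ncard_of_injOn (fun t : ℕ => (t : ℤ)) ?_ (Nat.cast_injective.injOn) hfin2
      rintro t ⟨ht, htX⟩
      refine ⟨?_, ht⟩
      rw [sub_zero, Int.cast_natCast, abs_of_nonneg (Nat.cast_nonneg t)]
      exact htX
    have h3 : ({t : ℕ | t ∈ Orb n ∧ (t : ℝ) ≤ X}.ncard : ℝ) ≤
        ({z : ℤ | |(z : ℝ) - 0| ≤ X ∧ ∃ k : ℕ, f₀^[k] (n : ℂ) = z}.ncard : ℝ) := by exact_mod_cast h2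
    refine (h3.trans h1).trans (mul_le_mul_of_nonneg_left ?_ hC.le)
    refine Real.rpow_le_rpow_of_exponent_le hX ?_
    have := le_max_left η₀ 0
    linarith
  have part1 : ∀ (ν : ℕ → ℝ) (B : Set ℝ) (θ : ℝ), Tendsto (fun m : ℕ => ν m / Real.log m) atTop atTop →
      B.Countable → 0 ≤ θ → θ < 1 → ∃ E : Set ℝ, dimH E ≤ ENNReal.ofReal (η / (1 - θ)) ∧ ∀ z : ℝ, 1 < z → z ∉ E →
        ∀ β ∈ B, 0 < β → ∀ n ∈ WanderingIntegers, ∀ w ∈ FatouComponent f₀ (n : ℂ),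
          ∃ m₀ : ℕ, ∀ m : ℕ, m₀ ≤ m → ∀ k : ℕ,
            z ^ (θ * ν m) < ‖f₀^[k] w - ((β * z ^ ν m : ℝ) : ℂ)‖ := by
    intro ν B θ hν hB hθ0 hθ1
    have hall := fun (j : {n : ℤ // n ∈ WanderingIntegers}) (k : ℕ) =>
      Pool.Agent.Helper203.NP.powers_set (Orb j.1) hν B hB hη0 (up_lt hθ1 k) (hc j.1 j.2)
    choose E hE1 hE2 using hall
    refine ⟨⋃ j, ⋂ k, E j k, ?_, fun z hz hzE β hβ hβ0 n hn w hw => ?_⟩
    · rw [dimH_iUnion]
      refine iSup_le fun j => ?_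
      have h1 := dim_iInter (F := Set.univ) (E := E j) (s := η) hθ1 (fun k => by
        rw [Set.inter_univ]
        exact hE1 j k)
      rwa [Set.inter_univ] at h1
    · have hzm : z ∉ ⋂ k, E ⟨n, hn⟩ k := fun g => hzE (Set.mem_iUnion.2 ⟨_, g⟩)
      rw [Set.mem_iInter] at hzm
      push Not at hzm
      obtain ⟨k, hk⟩ := hzm
      obtain ⟨m₀, hm₀⟩ := hE2 ⟨n, hn⟩ k z hz hk β hβ hβ0
      have hz0 : 0 < z := by linarith
      have hlim : Tendsto (fun m => z ^ ν m) atTop atTop := by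
        have h1 : Tendsto (fun m => Real.exp (Real.log z * ν m)) atTop atTop :=
          Real.tendsto_exp_atTop.comp ((Pool.Agent.V11001.KM.tendsto_lam hν).const_mul_atTop (Real.log_pos hz))
        refine h1.congr fun m => ?_
        rw [Real.rpow_def_of_pos hz0]
      have hpow : ∀ (t : ℝ) (m : ℕ), z ^ (t * ν m) = (z ^ ν m) ^ t := fun t m => by
        rw [← Real.rpow_mul hz0.le, mul_comm]
      have hev0 := far_zero hlim hβ0 (up_lt hθ1 k) 0
      obtain ⟨m₁, hm₁⟩ := eventually_atTop.1 hev0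
      refine key (fun m => β * z ^ ν m) (fun m => z ^ (θ * ν m)) (fun m => z ^ (up θ k * ν m)) n hn w hw
        ⟨max m₀ m₁, fun m hm => far_of ?_ (hm₀ m ((le_max_left _ _).trans hm))⟩ (fun B => ?_) ?_
      · have := hm₁ m ((le_max_right _ _).trans hm)
        rw [hpow]
        linarith
      · filter_upwards [far_zero hlim hβ0 hθ1 B] with m hm
        rw [hpow]
        exact hm
      · filter_upwards [two_exps hlim hθ0 (lt_up hθ1 k)] with m hm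
        rw [hpow, hpow]
        exact hm
  have part2 : ∀ θ : ℝ, 0 ≤ θ → θ < 1 →
      ∃ E : Set ℝ, (∀ a : ℝ, 0 < a → dimH (E ∩ Set.Ici a) ≤ ENNReal.ofReal ((η + 1 / a) / (1 - θ))) ∧
        ∀ α : ℝ, 0 < α → α ∉ E → ∀ n ∈ WanderingIntegers, ∀ w ∈ FatouComponent f₀ (n : ℂ),
          ∃ m₀ : ℕ, ∀ m : ℕ, m₀ ≤ m → ∀ k : ℕ,
            ((m : ℝ) ^ α) ^ θ < ‖f₀^[k] w - (((m : ℝ) ^ α : ℝ) : ℂ)‖ := by
    intro θ hθ0 hθ1
    have hall := fun (j : {n : ℤ // n ∈ WanderingIntegers}) (k : ℕ) =>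
      (Pool.Agent.H164.LS.three (Orb j.1) hη0 (hθ0.trans (lt_up hθ1 k).le) (up_lt hθ1 k) (fun ε hε => by
        obtain ⟨C, hC⟩ := hc j.1 j.2 ε hε
        exact ⟨C, fun X hX => (hC X hX).2⟩)).2.2
    choose E hE1 hE2 using hall
    refine ⟨⋃ j, ⋂ k, E j k, fun a ha => ?_, fun α hα hαE n hn w hw => ?_⟩
    · rw [Set.iUnion_inter, dimH_iUnion]
      exact iSup_le fun j => dim_iInter hθ1 (fun k => hE1 j k a ha)
    · have hzm : α ∉ ⋂ k, E ⟨n, hn⟩ k := fun g => hαE (Set.mem_iUnion.2 ⟨_, g⟩)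
      rw [Set.mem_iInter] at hzm
      push Not at hzm
      obtain ⟨k, hk⟩ := hzm
      obtain ⟨m₀, hm₀⟩ := hE2 ⟨n, hn⟩ k α hα hk
      have hlim : Tendsto (fun m : ℕ => (m : ℝ) ^ α) atTop atTop :=
        (tendsto_rpow_atTop hα).comp tendsto_natCast_atTop_atTop
      have hev0 := far_zero hlim one_pos (up_lt hθ1 k) 0
      obtain ⟨m₁, hm₁⟩ := eventually_atTop.1 hev0
      refine key (fun m => (m : ℝ) ^ α) (fun m => ((m : ℝ) ^ α) ^ θ) (fun m => ((m : ℝ) ^ α) ^ up θ k) n hn w hw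
        ⟨max m₀ m₁, fun m hm => far_of ?_ (hm₀ m ((le_max_left _ _).trans hm))⟩ (fun B => ?_) ?_
      · have := hm₁ m ((le_max_right _ _).trans hm)
        linarith
      · filter_upwards [far_zero hlim one_pos hθ1 B] with m hm
        rw [one_mul] at hm
        exact hm
      · exact two_exps hlim hθ0 (lt_up hθ1 k)
  refine ⟨η, hη0, hηH, part1, part2, fun ν B hν hB => ?_, ?_⟩
  · obtain ⟨E, hE1, hE2⟩ := part1 ν B (1 - H) hν hB (by linarith) (by linarith)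
    have hnull : volume E = 0 := Pool.Agent.Helper203.NP.null_of_dim hE1 (by
      rw [sub_sub_cancel, div_lt_one hH0]
      exact hηH)
    filter_upwards [compl_mem_ae_iff.2 hnull] with z hz hz1 β hβ hβ0
    exact hE2 z hz1 hz β hβ hβ0
  · obtain ⟨E, hE1, hE2⟩ := part2 (1 - H) (by linarith) (by linarith)
    have hg : 0 < H - η := by linarith
    refine ⟨2 / (H - η), by positivity, ?_⟩
    have hnull : volume (E ∩ Set.Ici (2 / (H - η))) = 0 :=
      Pool.Agent.Helper203.NP.null_of_dim (hE1 _ (by positivity)) (by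
        rw [sub_sub_cancel, div_lt_one hH0, one_div_div]
        linarith)
    filter_upwards [compl_mem_ae_iff.2 hnull] with α hα hα1
    have hα0 : 0 < α := lt_of_lt_of_le (by positivity) hα1
    exact hE2 α hα0 (fun hmem => hα ⟨hmem, hα1⟩)

end Pool.Agent.Results.MP_071ec9_an.WanderingNearPowers
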